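import Pool.Agent.Lib.MP_c82047_co93.Density
import Pool.Agent.Lib.MP_c82047_co93.Reduce

/-!
# The density bound 1/18 in the (7,4) problem

A 3-graph on `n` vertices in which no 7 vertices span 4 edges has at most `(1/18 + o(1)) n²` edges.
-/

open Pool.Agent.Lib.MP_c82047_co93 Pool.Agent.Lib.MP_c82047_co18.Seven

namespace Pool.Agent.Results.MP_c82047_co.SevenEighteenth

theorem result : ∀ ε : ℝ, 0 < ε → ∃ n₀ : ℕ, ∀ n : ℕ, n₀ ≤ n →
    ∀ E : Finset (Finset (Fin n)), (∀ e ∈ E, e.card = 3) →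
      (∀ S : Finset (Fin n), S.card = 7 → (E.filter (fun e => e ⊆ S)).card < 4) →
        (E.card : ℝ) ≤ (1 / 18 + ε) * (n : ℝ) ^ 2 := by
  intro ε hε
  obtain ⟨n₁, h1⟩ := linear_density (ε / 2) (by positivity)
  obtain ⟨n₂, hn₂⟩ := exists_nat_gt (4 / ε)
  refine ⟨max n₁ (max n₂ 7), ?_⟩
  intro n hn E h3 h7
  have hn1 : n₁ ≤ n := le_trans (le_max_left _ _) hn
  have hn2 : n₂ ≤ n := le_trans (le_trans (le_max_left _ _) (le_max_right _ _)) hn
  have hn3 : 7 ≤ n := le_trans (le_trans (le_max_right _ _) (le_max_right _ _)) hn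
  have hf : Free74 E := by
    intro S hS
    obtain ⟨S', hSS', hS'⟩ := Finset.exists_superset_card_eq hS (by simpa using hn3)
    have h2 := h7 S' hS'
    have h4 : (E.filter (fun h => h ⊆ S)).card ≤ (E.filter (fun e => e ⊆ S')).card := by
      refine Finset.card_le_card fun e he => ?_
      simp only [Finset.mem_filter] at he ⊢
      exact ⟨he.1, he.2.trans hSS'⟩
    omega
  have h2 := h1 n hn1 (E \ bad E) (lin_sdiff h3) (free_sdiff hf)
  have h4 := card_bad_le h3 hf
  rw [Fintype.card_fin] at h4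
  have h5 : E.card ≤ (E \ bad E).card + (bad E).card := by
    have h6 : E ⊆ (E \ bad E) ∪ bad E := by
      intro e he
      by_cases h : e ∈ bad E
      · exact Finset.mem_union_right _ h
      · exact Finset.mem_union_left _ (Finset.mem_sdiff.2 ⟨he, h⟩)
    exact le_trans (Finset.card_le_card h6) (Finset.card_union_le _ _)
  have h6 : (E.card : ℝ) ≤ ((E \ bad E).card : ℝ) + 2 * n := by
    have : E.card ≤ (E \ bad E).card + 2 * n := by omega
    exact_mod_cast this
  have hNε : 4 < ε * n := by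
    have h8 : 4 / ε < (n : ℝ) := lt_of_lt_of_le hn₂ (by exact_mod_cast hn2)
    rw [div_lt_iff₀ hε] at h8
    linarith
  have hn0 : (0 : ℝ) < n := by
    have : (7 : ℝ) ≤ n := by exact_mod_cast hn3
    linarith
  nlinarith

end Pool.Agent.Results.MP_c82047_co.SevenEighteenth
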